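import Mathlib

set_option autoImplicit false
set_option linter.unusedSectionVars false

namespace Pool.Agent.H346R3.RR

open Finset

variable {ι : Type*} [DecidableEq ι] {Q : ι → Type*} {K : Type*} [Field K]

/-- functions of all coordinates depending only on the coordinates in `I` -/
def Dep (Q : ι → Type*) (K : Type*) [Field K] (I : Finset ι) : Submodule K ((∀ i, Q i) → K) where
  carrier := {f | ∀ x y : (∀ i, Q i), (∀ i ∈ I, x i = y i) → f x = f y}
  add_mem' := fun {f g} hf hg x y h => by
    simp only [Pi.add_apply]; rw [hf x y h, hg x y h]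
  zero_mem' := fun _ _ _ => rfl
  smul_mem' := fun c f hf x y h => by
    simp only [Pi.smul_apply]; rw [hf x y h]

theorem mem_Dep {I : Finset ι} {f : (∀ i, Q i) → K} :
    f ∈ Dep Q K I ↔ ∀ x y : (∀ i, Q i), (∀ i ∈ I, x i = y i) → f x = f y := Iff.rfl

theorem Dep_mono {I J : Finset ι} (h : I ⊆ J) : Dep Q K I ≤ Dep Q K J :=
  fun _ hf x y hxy => hf x y (fun i hi => hxy i (h hi))

theorem mul_mem_Dep {I J L : Finset ι} {f g : (∀ i, Q i) → K} (hf : f ∈ Dep Q K I)
    (hg : g ∈ Dep Q K J) (h1 : I ⊆ L) (h2 : J ⊆ L) : f * g ∈ Dep Q K L := by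
  intro x y h
  simp only [Pi.mul_apply]
  rw [hf x y (fun i hi => h i (h1 hi)), hg x y (fun i hi => h i (h2 hi))]

/-- partial evaluation: freeze the coordinates outside `J` at `q`. -/
def ev (J : Finset ι) (q : ∀ i, Q i) : ((∀ i, Q i) → K) →ₗ[K] ((∀ i, Q i) → K) where
  toFun f := fun x => f (J.piecewise x q)
  map_add' _ _ := rfl
  map_smul' _ _ := rfl

theorem ev_apply (J : Finset ι) (q x : ∀ i, Q i) (f : (∀ i, Q i) → K) :
    ev J q f x = f (J.piecewise x q) := rfl

theorem ev_mul (J : Finset ι) (q : ∀ i, Q i) (f g : (∀ i, Q i) → K) :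
    ev J q (f * g) = ev J q f * ev J q g := rfl

theorem ev_mem {I J L : Finset ι} (q : ∀ i, Q i) {f : (∀ i, Q i) → K} (hf : f ∈ Dep Q K I)
    (h : I ∩ J ⊆ L) : ev J q f ∈ Dep Q K L := by
  intro x y hxy
  rw [ev_apply, ev_apply]
  apply hf
  intro i hi
  by_cases hJ : i ∈ J
  · rw [Finset.piecewise_eq_of_mem _ _ _ hJ, Finset.piecewise_eq_of_mem _ _ _ hJ]
    exact hxy i (h (Finset.mem_inter.mpr ⟨hi, hJ⟩))
  · rw [Finset.piecewise_eq_of_notMem _ _ _ hJ, Finset.piecewise_eq_of_notMem _ _ _ hJ]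

theorem ev_mem_self (J : Finset ι) (q : ∀ i, Q i) (f : (∀ i, Q i) → K) :
    ev J q f ∈ Dep Q K J := by
  intro x y hxy
  rw [ev_apply, ev_apply]
  have h : J.piecewise x q = J.piecewise y q := by
    funext i
    by_cases hi : i ∈ J
    · rw [Finset.piecewise_eq_of_mem _ _ _ hi, Finset.piecewise_eq_of_mem _ _ _ hi, hxy i hi]
    · rw [Finset.piecewise_eq_of_notMem _ _ _ hi, Finset.piecewise_eq_of_notMem _ _ _ hi]
  rw [h]

theorem ev_of_subset {I J : Finset ι} (q : ∀ i, Q i) {f : (∀ i, Q i) → K}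
    (hf : f ∈ Dep Q K I) (h : I ⊆ J) : ev J q f = f := by
  ext x
  rw [ev_apply]
  apply hf
  intro i hi
  rw [Finset.piecewise_eq_of_mem _ _ _ (h hi)]

theorem ev_of_disjoint {I J : Finset ι} (q : ∀ i, Q i) {f : (∀ i, Q i) → K}
    (hf : f ∈ Dep Q K I) (h : Disjoint I J) (x : ∀ i, Q i) : ev J q f x = f q := by
  rw [ev_apply]
  apply hf
  intro i hi
  rw [Finset.piecewise_eq_of_notMem _ _ _ (Finset.disjoint_left.mp h hi)]

/-- averaged partial evaluation. -/
noncomputable def Lop (J : Finset ι) (ν : (∀ i, Q i) →₀ K) :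
    ((∀ i, Q i) → K) →ₗ[K] ((∀ i, Q i) → K) :=
  ∑ q ∈ ν.support, ν q • ev J q

theorem Lop_apply (J : Finset ι) (ν : (∀ i, Q i) →₀ K) (f : (∀ i, Q i) → K) :
    Lop J ν f = ∑ q ∈ ν.support, ν q • ev J q f := by
  simp [Lop]

theorem Lop_mem {J : Finset ι} (ν : (∀ i, Q i) →₀ K) {f : (∀ i, Q i) → K}
    (S : Submodule K ((∀ i, Q i) → K)) (h : ∀ q, ev J q f ∈ S) : Lop J ν f ∈ S := by
  rw [Lop_apply]
  exact Submodule.sum_mem _ (fun q _ => S.smul_mem _ (h q))

theorem Lop_mul {J I : Finset ι} (ν : (∀ i, Q i) →₀ K) {g h : (∀ i, Q i) → K}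
    (hg : g ∈ Dep Q K J) (hh : h ∈ Dep Q K I) (hd : Disjoint I J) :
    Lop J ν (g * h) = (∑ q ∈ ν.support, ν q * h q) • g := by
  rw [Lop_apply, Finset.sum_smul]
  apply Finset.sum_congr rfl
  intro q _
  rw [ev_mul, ev_of_subset q hg (le_refl _)]
  ext x
  simp only [Pi.smul_apply, Pi.mul_apply, smul_eq_mul]
  rw [ev_of_disjoint q hh hd]
  ring

/-- linearly independent functions have a dual family of finite combinations of evaluations. -/
theorem exists_dual {X : Type*} {n : ℕ} (b : Fin n → X → K) (hb : LinearIndependent K b) :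
    ∃ ν : Fin n → (X →₀ K), ∀ k k', (∑ q ∈ (ν k).support, ν k q * b k' q) =
      if k = k' then 1 else 0 := by
  classical
  let A : (X →₀ K) →ₗ[K] (Fin n → K) :=
    Finsupp.linearCombination K (fun q => fun k => b k q)
  have hA : LinearMap.range A = ⊤ := by
    by_contra hne
    obtain ⟨φ, hφ, hφ'⟩ := Submodule.exists_le_ker_of_lt_top _ (lt_top_iff_ne_top.mpr hne)
    have h1 : ∀ q, φ (fun k => b k q) = 0 := by
      intro q
      have : (fun k => b k q) ∈ LinearMap.range A := by
        refine ⟨Finsupp.single q 1, ?_⟩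
        simp [A]
      exact hφ' this
    have h2 : ∑ k, φ (Pi.single k 1) • b k = 0 := by
      ext q
      have h3 := h1 q
      have h4 : (fun k => b k q) = ∑ k, b k q • (Pi.single k (1 : K) : Fin n → K) := by
        ext j
        simp [Finset.sum_apply, Pi.single_apply]
      rw [h4, map_sum] at h3
      simp only [map_smul, smul_eq_mul] at h3
      simp only [Finset.sum_apply, Pi.smul_apply, smul_eq_mul, Pi.zero_apply]
      rw [← h3]
      exact Finset.sum_congr rfl (fun k _ => mul_comm _ _)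
    have h5 := Fintype.linearIndependent_iff.mp hb _ h2
    apply hφ
    ext k
    simpa using h5 k
  have hs : ∀ v : Fin n → K, ∃ ν, A ν = v := by
    intro v
    have : v ∈ LinearMap.range A := by rw [hA]; trivial
    exact this
  choose ν hν using hs
  refine ⟨fun k => ν (Pi.single k 1), fun k k' => ?_⟩
  have h := congrFun (hν (Pi.single k 1)) k'
  simp only [A, Finsupp.linearCombination_apply, Finsupp.sum, Finset.sum_apply, Pi.smul_apply,
    smul_eq_mul] at h
  rw [h, Pi.single_apply]
  by_cases hk : k = k'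
  · simp [hk]
  · simp [hk, Ne.symm hk]

/-- elements of the span of a bilinear image can be written with linearly independent second
factors. -/
theorem indep_rep {M N P : Type*} [AddCommGroup M] [Module K M] [AddCommGroup N] [Module K N]
    [AddCommGroup P] [Module K P] (B : M →ₗ[K] N →ₗ[K] P) (M' : Submodule K M)
    (N' : Submodule K N) {z : P}
    (hz : z ∈ Submodule.span K {z | ∃ g ∈ M', ∃ h ∈ N', z = B g h}) :
    ∃ (n : ℕ) (g : Fin n → M) (h : Fin n → N), (∀ k, g k ∈ M') ∧ (∀ k, h k ∈ N') ∧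
      LinearIndependent K h ∧ z = ∑ k, B (g k) (h k) := by
  classical
  have h1 : ∃ (m : ℕ) (g : Fin m → M) (h : Fin m → N), (∀ k, g k ∈ M') ∧ (∀ k, h k ∈ N') ∧
      z = ∑ k, B (g k) (h k) := by
    induction hz using Submodule.span_induction with
    | mem x hx =>
      obtain ⟨g, hg, h, hh, rfl⟩ := hx
      exact ⟨1, fun _ => g, fun _ => h, fun _ => hg, fun _ => hh, by simp⟩
    | zero => exact ⟨0, Fin.elim0, Fin.elim0, fun k => k.elim0, fun k => k.elim0, by simp⟩
    | add x y _ _ hx hy =>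
      obtain ⟨m, g, h, hg, hh, e⟩ := hx
      obtain ⟨m', g', h', hg', hh', e'⟩ := hy
      refine ⟨m + m', Fin.append g g', Fin.append h h', ?_, ?_, ?_⟩
      · intro k
        refine Fin.addCases (fun i => ?_) (fun i => ?_) k
        · rw [Fin.append_left]; exact hg i
        · rw [Fin.append_right]; exact hg' i
      · intro k
        refine Fin.addCases (fun i => ?_) (fun i => ?_) k
        · rw [Fin.append_left]; exact hh i
        · rw [Fin.append_right]; exact hh' i
      · rw [Fin.sum_univ_add, e, e']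
        simp [Fin.append_left, Fin.append_right]
    | smul a x _ hx =>
      obtain ⟨m, g, h, hg, hh, e⟩ := hx
      refine ⟨m, fun k => a • g k, h, fun k => M'.smul_mem _ (hg k), hh, ?_⟩
      rw [e, Finset.smul_sum]
      simp
  obtain ⟨m, g, h, hg, hh, e⟩ := h1
  let H : Submodule K N := Submodule.span K (Set.range h)
  have hH : H ≤ N' := Submodule.span_le.mpr (by rintro _ ⟨k, rfl⟩; exact hh k)
  have : FiniteDimensional K H := FiniteDimensional.span_of_finite K (Set.finite_range h)
  let b := Module.finBasis K H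
  have hmem : ∀ i, h i ∈ H := fun i => Submodule.subset_span ⟨i, rfl⟩
  have hexp : ∀ i, h i = ∑ k, (b.repr ⟨h i, hmem i⟩ k) • (b k : N) := by
    intro i
    have h2 := congrArg H.subtype (b.sum_repr ⟨h i, hmem i⟩)
    rw [map_sum] at h2
    simp only [map_smul, Submodule.subtype_apply] at h2
    exact h2.symm
  refine ⟨Module.finrank K H, fun k => ∑ i, (b.repr ⟨h i, hmem i⟩ k) • g i,
    fun k => (b k : N), ?_, ?_, ?_, ?_⟩
  · intro k
    exact Submodule.sum_mem _ (fun i _ => M'.smul_mem _ (hg i))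
  · intro k
    exact hH (b k).2
  · exact b.linearIndependent.map' H.subtype (Submodule.ker_subtype H)
  · rw [e]
    calc ∑ i, B (g i) (h i)
        = ∑ i, ∑ k, (b.repr ⟨h i, hmem i⟩ k) • B (g i) (b k : N) := by
          apply Finset.sum_congr rfl
          intro i _
          conv_lhs => rw [hexp i]
          rw [map_sum]
          simp
      _ = ∑ k, ∑ i, (b.repr ⟨h i, hmem i⟩ k) • B (g i) (b k : N) := Finset.sum_comm
      _ = _ := by
          apply Finset.sum_congr rfl
          intro k _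
          rw [map_sum, LinearMap.sum_apply]
          simp

end Pool.Agent.H346R3.RR
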