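import Pool.Agent.H346R3.RR.PhaseTwo

set_option autoImplicit false
set_option linter.unusedSectionVars false

namespace Pool.Agent.H346R3.RR

open Finset

variable {ι : Type*} [DecidableEq ι] {Q : ι → Type*} {K : Type*} [Field K]

variable {Φ : Finset ι → (((∀ i, Q i) → K) →ₗ[K] ((∀ i, Q i) → K))}
variable {A : Subalgebra K ((∀ i, Q i) → K)} {n : ℕ} {I : Finset ι} {α : ι}

theorem const_mem (A : Subalgebra K ((∀ i, Q i) → K)) {w : (∀ i, Q i) → K}
    (hw : w ∈ Dep Q K ∅) : w ∈ A := by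
  by_cases hne : Nonempty (∀ i, Q i)
  · obtain ⟨x₀⟩ := hne
    have : w = algebraMap K _ (w x₀) := by
      ext x
      rw [Pi.algebraMap_apply]
      exact hw x x₀ (by simp)
    rw [this]
    exact A.algebraMap_mem _
  · have : w = 0 := by
      ext x
      exact (hne ⟨x⟩).elim
    rw [this]
    exact A.zero_mem

theorem const_mul {w : (∀ i, Q i) → K} (hw : w ∈ Dep Q K ∅) :
    ∃ c : K, ∀ f : (∀ i, Q i) → K, w * f = c • f := by
  by_cases hne : Nonempty (∀ i, Q i)
  · obtain ⟨x₀⟩ := hne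
    refine ⟨w x₀, fun f => ?_⟩
    ext x
    simp only [Pi.mul_apply, Pi.smul_apply, smul_eq_mul]
    rw [hw x x₀ (by simp)]
  · exact ⟨0, fun f => by ext x; exact (hne ⟨x⟩).elim⟩

/-- the graph of the extension -/
def GG (Φ : Finset ι → (((∀ i, Q i) → K) →ₗ[K] ((∀ i, Q i) → K)))
    (A : Subalgebra K ((∀ i, Q i) → K)) (I : Finset ι) (α : ι) :
    Submodule K (((∀ i, Q i) → K) × ((∀ i, Q i) → K)) :=
  (⨆ J ∈ JJ I α, Gam Φ ⊤ I J) ⊔
    (A.toSubmodule ⊓ Dep Q K I).map (LinearMap.prod LinearMap.id LinearMap.id)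

theorem GG_inj (hA : EvClosed A) (hΦ : Retr A Φ n) (hI : I.card = n + 1) (hα : α ∈ I)
    {z : ((∀ i, Q i) → K) × ((∀ i, Q i) → K)} (hz : z ∈ GG Φ A I α) (h0 : z.1 = 0) : z = 0 := by
  unfold GG at hz
  obtain ⟨u, hu, v, hv, rfl⟩ := Submodule.mem_sup.mp hz
  obtain ⟨f, hf, rfl⟩ := Submodule.mem_map.mp hv
  have h1 : u.1 = -f := by
    have : u.1 + f = 0 := h0
    exact eq_neg_of_add_eq_zero_left this
  have h2 : u.1 ∈ A := by rw [h1]; exact A.neg_mem hf.1
  have h3 := lemmaK hA hΦ hI hα hu h2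
  ext1
  · exact h0
  · change u.2 + f = 0
    rw [← h3, h1]
    simp

theorem GG_mem (hΦ : Retr A Φ n) (hI : I.card = n + 1) (hα : α ∈ I)
    {z : ((∀ i, Q i) → K) × ((∀ i, Q i) → K)} (hz : z ∈ GG Φ A I α) :
    z.2 ∈ A ∧ z.2 ∈ Dep Q K I := by
  have h : GG Φ A I α ≤ (A.toSubmodule ⊓ Dep Q K I).comap (LinearMap.snd K _ _) := by
    unfold GG
    refine sup_le ?_ ?_
    · refine iSup_le (fun J => iSup_le (fun hJ => ?_))
      obtain ⟨hJI, hαJ⟩ := mem_JJ.mp hJ
      have hJn : J.card ≤ n := by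
        have := Finset.card_lt_card hJI
        omega
      have hcard : (I \ J).card ≤ n := by
        have h2 : I \ J ⊆ I.erase α := by
          intro i hi
          rw [Finset.mem_sdiff] at hi
          rw [Finset.mem_erase]
          exact ⟨fun h => hi.2 (h ▸ hαJ), hi.1⟩
        have h3 := Finset.card_le_card h2
        rw [Finset.card_erase_of_mem hα] at h3
        omega
      unfold Gam
      rw [Submodule.span_le]
      rintro x ⟨g, hg, h, hh, rfl⟩
      change (BB Φ I J g h).2 ∈ A.toSubmodule ⊓ Dep Q K I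
      rw [BB_apply]
      exact ⟨A.mul_mem (hΦ.mapsA _ hJn _ hg.2) (hΦ.mapsA _ hcard _ hh),
        mul_mem_Dep (hΦ.mapsD _ hJn _ hg.2) (hΦ.mapsD _ hcard _ hh) hJI.1 Finset.sdiff_subset⟩
    · rw [Submodule.map_le_iff_le_comap]
      intro f hf
      exact hf
  exact h hz

theorem exists_phi (hA : EvClosed A) (hΦ : Retr A Φ n) (hI : I.card = n + 1) :
    ∃ φ : ((∀ i, Q i) → K) →ₗ[K] ((∀ i, Q i) → K), (∀ f, φ f ∈ A) ∧ (∀ f, φ f ∈ Dep Q K I) ∧
      (∀ f ∈ A, f ∈ Dep Q K I → φ f = f) ∧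
      (∀ J L : Finset ι, J ∪ L = I → Disjoint J L → J.Nonempty → L.Nonempty →
        ∀ f ∈ Dep Q K J, ∀ g ∈ Dep Q K L, φ (f * g) = Φ J f * Φ L g) := by
  classical
  have hne : I.Nonempty := by
    rw [← Finset.card_pos]; omega
  obtain ⟨α, hα⟩ := hne
  let p : GG Φ A I α →ₗ[K] ((∀ i, Q i) → K) := (LinearMap.fst K _ _).comp (GG Φ A I α).subtype
  have hp : LinearMap.ker p = ⊥ := by
    rw [LinearMap.ker_eq_bot']
    intro m hm
    exact Subtype.ext (GG_inj hA hΦ hI hα m.2 hm)
  obtain ⟨g, hg⟩ := LinearMap.exists_leftInverse_of_injective p hp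
  let φ : ((∀ i, Q i) → K) →ₗ[K] ((∀ i, Q i) → K) :=
    ((LinearMap.snd K _ _).comp (GG Φ A I α).subtype).comp g
  have hφ : ∀ z ∈ GG Φ A I α, φ z.1 = z.2 := by
    intro z hz
    have h1 : g (p ⟨z, hz⟩) = ⟨z, hz⟩ := by
      have := LinearMap.congr_fun hg ⟨z, hz⟩
      simpa using this
    have h2 : p ⟨z, hz⟩ = z.1 := rfl
    rw [h2] at h1
    change ((GG Φ A I α).subtype (g z.1)).2 = z.2
    rw [h1]
    rfl
  refine ⟨φ, fun f => (GG_mem hΦ hI hα (g f).2).1, fun f => (GG_mem hΦ hI hα (g f).2).2, ?_, ?_⟩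
  · intro f hf hf'
    exact hφ (f, f) (Submodule.mem_sup_right (Submodule.mem_map.mpr ⟨f, ⟨hf, hf'⟩, rfl⟩))
  · have key : ∀ J L : Finset ι, J ∪ L = I → Disjoint J L → α ∈ J → L.Nonempty →
        ∀ f ∈ Dep Q K J, ∀ g ∈ Dep Q K L, φ (f * g) = Φ J f * Φ L g := by
      intro J L hJL hd hαJ hL f hf g hg
      have hL' : I \ J = L := by
        rw [← hJL, Finset.union_sdiff_cancel_left hd]
      have hJI : J ⊂ I := by
        rw [Finset.ssubset_iff_subset_ne]
        refine ⟨by rw [← hJL]; exact Finset.subset_union_left, fun h => ?_⟩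
        obtain ⟨x, hx⟩ := hL
        have : x ∈ J := by rw [h, ← hJL]; exact Finset.mem_union_right _ hx
        exact (Finset.disjoint_left.mp hd this) hx
      have hmem : BB Φ I J f g ∈ GG Φ A I α := by
        apply Submodule.mem_sup_left
        have h1 : Gam Φ ⊤ I J ≤ ⨆ J ∈ JJ I α, Gam Φ ⊤ I J :=
          le_iSup_of_le J (le_iSup_of_le (mem_JJ.mpr ⟨hJI, hαJ⟩) (le_refl _))
        apply h1
        exact Submodule.subset_span ⟨f, ⟨trivial, hf⟩, g, by rw [hL']; exact hg, rfl⟩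
      have h2 := hφ _ hmem
      rw [BB_apply, hL'] at h2
      exact h2
    intro J L hJL hd hJ hL f hf g hg
    have hα' : α ∈ J ∪ L := by rw [hJL]; exact hα
    rcases Finset.mem_union.mp hα' with h | h
    · exact key J L hJL hd h hL f hf g hg
    · rw [mul_comm f g, mul_comm (Φ J f)]
      exact key L J (by rw [Finset.union_comm]; exact hJL) hd.symm h hJ g hg f hf

theorem retr_succ (hA : EvClosed A) (hΦ : Retr A Φ n) :
    ∃ Φ' : Finset ι → (((∀ i, Q i) → K) →ₗ[K] ((∀ i, Q i) → K)), Retr A Φ' (n + 1) := by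
  classical
  have hex : ∀ I : Finset ι, ∃ φ : ((∀ i, Q i) → K) →ₗ[K] ((∀ i, Q i) → K), I.card = n + 1 →
      (∀ f, φ f ∈ A) ∧ (∀ f, φ f ∈ Dep Q K I) ∧
      (∀ f ∈ A, f ∈ Dep Q K I → φ f = f) ∧
      (∀ J L : Finset ι, J ∪ L = I → Disjoint J L → J.Nonempty → L.Nonempty →
        ∀ f ∈ Dep Q K J, ∀ g ∈ Dep Q K L, φ (f * g) = Φ J f * Φ L g) := by
    intro I
    by_cases hI : I.card = n + 1
    · obtain ⟨φ, hφ⟩ := exists_phi hA hΦ hI
      exact ⟨φ, fun _ => hφ⟩
    · exact ⟨0, fun h => (hI h).elim⟩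
  choose φ hφ using hex
  refine ⟨fun I => if I.card = n + 1 then φ I else Φ I, ?_, ?_, ?_, ?_⟩
  · intro I hI f hf
    by_cases h : I.card = n + 1
    · simp only [h, if_true]
      exact (hφ I h).1 f
    · simp only [h, if_false]
      exact hΦ.mapsA I (by omega) f hf
  · intro I hI f hf
    by_cases h : I.card = n + 1
    · simp only [h, if_true]
      exact (hφ I h).2.1 f
    · simp only [h, if_false]
      exact hΦ.mapsD I (by omega) f hf
  · intro I hI f hf hf'
    by_cases h : I.card = n + 1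
    · simp only [h, if_true]
      exact (hφ I h).2.2.1 f hf' hf
    · simp only [h, if_false]
      exact hΦ.fix I (by omega) f hf hf'
  · intro J L hd hc f hf g hg
    have h0n : (∅ : Finset ι).card ≠ n + 1 := by simp
    have hfix0 : ∀ f ∈ Dep Q K ∅, Φ ∅ f = f := fun f hf =>
      hΦ.fix ∅ (by simp) f hf (const_mem A hf)
    rcases Finset.eq_empty_or_nonempty J with hJ | hJ
    · subst hJ
      rw [Finset.empty_union]
      simp only [h0n, if_false]
      rw [hfix0 f hf]
      obtain ⟨c, hc⟩ := const_mul hf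
      rw [hc, hc, map_smul]
    · rcases Finset.eq_empty_or_nonempty L with hL | hL
      · subst hL
        rw [Finset.union_empty]
        simp only [h0n, if_false]
        rw [hfix0 g hg]
        obtain ⟨c, hc⟩ := const_mul hg
        rw [mul_comm f g, mul_comm _ g, hc, hc, map_smul]
      · have hcard : (J ∪ L).card = J.card + L.card := Finset.card_union_of_disjoint hd
        have hJp := Finset.card_pos.mpr hJ
        have hLp := Finset.card_pos.mpr hL
        have hJn : J.card ≠ n + 1 := by omega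
        have hLn : L.card ≠ n + 1 := by omega
        simp only [hJn, hLn, if_false]
        by_cases h : (J ∪ L).card = n + 1
        · simp only [h, if_true]
          exact (hφ _ h).2.2.2 J L rfl hd hJ hL f hf g hg
        · simp only [h, if_false]
          exact hΦ.mul J L hd (by omega) f hf g hg

theorem exists_retr (hA : EvClosed A) (n : ℕ) :
    ∃ Φ : Finset ι → (((∀ i, Q i) → K) →ₗ[K] ((∀ i, Q i) → K)), Retr A Φ n := by
  induction n with
  | zero =>
    refine ⟨fun _ => LinearMap.id, ?_, ?_, ?_, ?_⟩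
    · intro I hI f hf
      have : I = ∅ := Finset.card_eq_zero.mp (Nat.le_zero.mp hI)
      subst this
      exact const_mem A hf
    · intro I _ f hf
      exact hf
    · intro I _ f _ _
      rfl
    · intro I J _ _ f _ g _
      rfl
  | succ n ih =>
    obtain ⟨Φ, hΦ⟩ := ih
    exact retr_succ hA hΦ

/-- multiplicativity over families of disjoint sets -/
theorem retr_prod (hΦ : Retr A Φ n) (S : Finset (Finset ι))
    (hS : (S : Set (Finset ι)).PairwiseDisjoint id) (hc : (S.sup id).card ≤ n)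
    (g : Finset ι → ((∀ i, Q i) → K)) (hg : ∀ I ∈ S, g I ∈ Dep Q K I) :
    (∏ I ∈ S, g I) ∈ Dep Q K (S.sup id) ∧ Φ (S.sup id) (∏ I ∈ S, g I) = ∏ I ∈ S, Φ I (g I) := by
  classical
  induction S using Finset.induction_on with
  | empty =>
    rw [Finset.sup_empty, Finset.prod_empty, Finset.prod_empty]
    refine ⟨fun _ _ _ => rfl, ?_⟩
    exact hΦ.fix ∅ (by simp) 1 (fun _ _ _ => rfl) A.one_mem
  | insert J S hJ ih =>
    rw [Finset.sup_insert, Finset.prod_insert hJ, Finset.prod_insert hJ, id]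
    rw [Finset.sup_insert, id] at hc
    have hc2 : (S.sup id).card ≤ n := (Finset.card_le_card Finset.subset_union_right).trans hc
    have hS2 : (S : Set (Finset ι)).PairwiseDisjoint id :=
      hS.subset (by simp)
    obtain ⟨h1, h2⟩ := ih hS2 hc2 (fun I hI => hg I (Finset.mem_insert_of_mem hI))
    have hgJ := hg J (Finset.mem_insert_self _ _)
    refine ⟨mul_mem_Dep hgJ h1 Finset.subset_union_left Finset.subset_union_right, ?_⟩
    have hd : Disjoint J (S.sup id) := by
      rw [Finset.disjoint_sup_right]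
      intro L hL
      exact hS (by simp) (by simp [hL]) (fun h => hJ (h ▸ hL))
    have h3 := hΦ.mul J (S.sup id) hd hc (g J) hgJ _ h1
    have h4 : (J ⊔ S.sup id : Finset ι) = J ∪ S.sup id := rfl
    rw [h4, h3, h2]

/-- **Theorem A**: decompositions of elements of `A` can be moved into `A`. -/
theorem theoremA [Fintype ι] (hA : EvClosed A) {k : ℕ}
    (P : Fin k → Finpartition (Finset.univ : Finset ι))
    (g : Fin k → Finset ι → ((∀ i, Q i) → K)) (hg : ∀ i I, g i I ∈ Dep Q K I)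
    (hT : (∑ i, ∏ I ∈ (P i).parts, g i I) ∈ A) :
    ∃ g' : Fin k → Finset ι → ((∀ i, Q i) → K), (∀ i I, g' i I ∈ A) ∧
      (∀ i I, g' i I ∈ Dep Q K I) ∧
      (∑ i, ∏ I ∈ (P i).parts, g i I) = ∑ i, ∏ I ∈ (P i).parts, g' i I := by
  classical
  obtain ⟨Φ, hΦ⟩ := exists_retr hA (Fintype.card ι)
  have hcard : ∀ I : Finset ι, I.card ≤ Fintype.card ι := fun I => Finset.card_le_univ I
  refine ⟨fun i I => Φ I (g i I), fun i I => hΦ.mapsA I (hcard I) _ (hg i I),
    fun i I => hΦ.mapsD I (hcard I) _ (hg i I), ?_⟩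
  have h1 : ∀ i, Φ Finset.univ (∏ I ∈ (P i).parts, g i I) = ∏ I ∈ (P i).parts, Φ I (g i I) := by
    intro i
    have h2 := (retr_prod hΦ (P i).parts (P i).disjoint (hcard _) (g i) (fun I _ => hg i I)).2
    rw [(P i).sup_parts] at h2
    exact h2
  have h3 : (∑ i, ∏ I ∈ (P i).parts, g i I) ∈ Dep Q K (Finset.univ : Finset ι) := by
    intro x y h
    have : x = y := funext (fun i => h i (Finset.mem_univ i))
    rw [this]
  rw [← hΦ.fix Finset.univ (hcard _) _ h3 hT, map_sum]
  exact Finset.sum_congr rfl (fun i _ => h1 i)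

end Pool.Agent.H346R3.RR
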