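import Pool.Agent.H346R3.RR.Basic

set_option autoImplicit false
set_option linter.unusedSectionVars false

namespace Pool.Agent.H346R3.RR

open Finset

variable {ι : Type*} [DecidableEq ι] {Q : ι → Type*} {K : Type*} [Field K]

/-- A family of linear maps which is a multiplicative retraction onto `A` up to size `n`. -/
structure Retr (A : Subalgebra K ((∀ i, Q i) → K))
    (Φ : Finset ι → (((∀ i, Q i) → K) →ₗ[K] ((∀ i, Q i) → K))) (n : ℕ) : Prop where
  mapsA : ∀ I : Finset ι, I.card ≤ n → ∀ f ∈ Dep Q K I, Φ I f ∈ A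
  mapsD : ∀ I : Finset ι, I.card ≤ n → ∀ f ∈ Dep Q K I, Φ I f ∈ Dep Q K I
  fix : ∀ I : Finset ι, I.card ≤ n → ∀ f ∈ Dep Q K I, f ∈ A → Φ I f = f
  mul : ∀ I J : Finset ι, Disjoint I J → (I ∪ J).card ≤ n → ∀ f ∈ Dep Q K I, ∀ g ∈ Dep Q K J,
    Φ (I ∪ J) (f * g) = Φ I f * Φ J g

/-- closure under partial evaluation -/
def EvClosed (A : Subalgebra K ((∀ i, Q i) → K)) : Prop :=
  ∀ (J : Finset ι) (q : ∀ i, Q i), ∀ f ∈ A, ev J q f ∈ A

section

variable (Φ : Finset ι → (((∀ i, Q i) → K) →ₗ[K] ((∀ i, Q i) → K)))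

/-- the bilinear map `(g, h) ↦ (g h, Φ g Φ h)` -/
def BB (I J : Finset ι) : ((∀ i, Q i) → K) →ₗ[K] ((∀ i, Q i) → K) →ₗ[K]
    (((∀ i, Q i) → K) × ((∀ i, Q i) → K)) :=
  LinearMap.mk₂ K (fun g h => (g * h, Φ J g * Φ (I \ J) h))
    (by intro a b c; simp [add_mul]) (by intro c a b; simp)
    (by intro a b c; simp [mul_add]) (by intro c a b; simp)

theorem BB_apply (I J : Finset ι) (g h : (∀ i, Q i) → K) :
    BB Φ I J g h = (g * h, Φ J g * Φ (I \ J) h) := rfl

/-- pairs coming from the split `J`, `I \ J`, with first factor in `S` -/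
def Gam (S : Submodule K ((∀ i, Q i) → K)) (I J : Finset ι) :
    Submodule K (((∀ i, Q i) → K) × ((∀ i, Q i) → K)) :=
  Submodule.span K {z | ∃ g ∈ S ⊓ Dep Q K J, ∃ h ∈ Dep Q K (I \ J), z = BB Φ I J g h}

theorem Gam_mono {S S' : Submodule K ((∀ i, Q i) → K)} (h : S ≤ S') (I J : Finset ι) :
    Gam Φ S I J ≤ Gam Φ S' I J := by
  apply Submodule.span_mono
  rintro z ⟨g, hg, k, hk, rfl⟩
  exact ⟨g, ⟨h hg.1, hg.2⟩, k, hk, rfl⟩

variable {Φ}
variable {A : Subalgebra K ((∀ i, Q i) → K)} {n : ℕ} {I : Finset ι} {α : ι}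

/-- the proper subsets of `I` containing `α` -/
def JJ (I : Finset ι) (α : ι) : Finset (Finset ι) := I.ssubsets.filter (fun J => α ∈ J)

theorem mem_JJ {J : Finset ι} : J ∈ JJ I α ↔ J ⊂ I ∧ α ∈ J := by
  simp [JJ]

/-- partially processed sums -/
def MM (Φ : Finset ι → (((∀ i, Q i) → K) →ₗ[K] ((∀ i, Q i) → K)))
    (A : Subalgebra K ((∀ i, Q i) → K)) (I : Finset ι) (α : ι) (s : ℕ) :
    Submodule K (((∀ i, Q i) → K) × ((∀ i, Q i) → K)) :=
  ⨆ J ∈ JJ I α, Gam Φ (if s ≤ J.card then A.toSubmodule else ⊤) I J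

theorem Gam_le_MM {s : ℕ} {J : Finset ι} (hJ : J ∈ JJ I α) :
    Gam Φ (if s ≤ J.card then A.toSubmodule else ⊤) I J ≤ MM Φ A I α s := by
  unfold MM
  exact le_iSup_of_le J (le_iSup_of_le hJ (le_refl _))

/-- the auxiliary space of phase one -/
def WW (A : Subalgebra K ((∀ i, Q i) → K)) (J : Finset ι) (α : ι) :
    Submodule K ((∀ i, Q i) → K) :=
  (A.toSubmodule ⊓ Dep Q K J) ⊔
    Submodule.span K {w | ∃ J' : Finset ι, J' ⊂ J ∧ α ∈ J' ∧
      ∃ u ∈ Dep Q K J', ∃ v ∈ Dep Q K (J \ J'), w = u * v}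

theorem WW_to (hΦ : Retr A Φ n) (hI : I.card = n + 1) {J : Finset ι} (hJ : J ∈ JJ I α)
    {w h : (∀ i, Q i) → K} (hw : w ∈ WW A J α) (hh : h ∈ Dep Q K (I \ J)) :
    BB Φ I J w h ∈ MM Φ A I α J.card := by
  obtain ⟨hJI, hαJ⟩ := mem_JJ.mp hJ
  have hJc : J.card ≤ n := by
    have := Finset.card_lt_card hJI
    omega
  unfold WW at hw
  obtain ⟨a, ha, b, hb, rfl⟩ := Submodule.mem_sup.mp hw
  rw [map_add, LinearMap.add_apply]
  apply Submodule.add_mem
  · apply Gam_le_MM hJ
    rw [if_pos (le_refl _)]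
    exact Submodule.subset_span ⟨a, ha, h, hh, rfl⟩
  · clear hw
    induction hb using Submodule.span_induction with
    | mem x hx =>
      obtain ⟨J', hJ'J, hαJ', u, hu, v, hv, rfl⟩ := hx
      have hJ'I : J' ⊂ I := hJ'J.trans hJI
      have hJ' : J' ∈ JJ I α := mem_JJ.mpr ⟨hJ'I, hαJ'⟩
      have hun : (J \ J') ∪ (I \ J) = I \ J' := by
        ext i
        simp only [Finset.mem_union, Finset.mem_sdiff]
        have h1 := @hJ'J.1 i
        have h2 := @hJI.1 i
        tauto
      have hun2 : J' ∪ (J \ J') = J := Finset.union_sdiff_of_subset hJ'J.1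
      have hcard : (I \ J').card ≤ n := by
        have h1 : α ∈ I := hJI.1 hαJ
        have h2 : I \ J' ⊆ I.erase α := by
          intro i hi
          rw [Finset.mem_sdiff] at hi
          rw [Finset.mem_erase]
          exact ⟨fun h => hi.2 (h ▸ hαJ'), hi.1⟩
        have h3 := Finset.card_le_card h2
        rw [Finset.card_erase_of_mem h1] at h3
        omega
      have hvh : v * h ∈ Dep Q K (I \ J') := by
        apply mul_mem_Dep hv hh
        · rw [← hun]; exact Finset.subset_union_left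
        · rw [← hun]; exact Finset.subset_union_right
      have e1 : Φ J (u * v) = Φ J' u * Φ (J \ J') v := by
        have := hΦ.mul J' (J \ J') Finset.disjoint_sdiff (by rw [hun2]; exact hJc) u hu v hv
        rwa [hun2] at this
      have e2 : Φ (I \ J') (v * h) = Φ (J \ J') v * Φ (I \ J) h := by
        have hd : Disjoint (J \ J') (I \ J) := by
          rw [Finset.disjoint_left]
          intro i hi hi'
          exact (Finset.mem_sdiff.mp hi').2 (Finset.mem_sdiff.mp hi).1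
        have := hΦ.mul (J \ J') (I \ J) hd (by rw [hun]; exact hcard) v hv h hh
        rwa [hun] at this
      have e3 : BB Φ I J (u * v) h = BB Φ I J' u (v * h) := by
        rw [BB_apply, BB_apply, e1, e2, mul_assoc, mul_assoc]
      rw [e3]
      apply Gam_le_MM hJ'
      have hlt : ¬ J.card ≤ J'.card := not_le.mpr (Finset.card_lt_card hJ'J)
      rw [if_neg hlt]
      exact Submodule.subset_span ⟨u, ⟨trivial, hu⟩, v * h, hvh, rfl⟩
    | zero => simp
    | add x y _ _ hx hy =>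
      rw [map_add, LinearMap.add_apply]
      exact Submodule.add_mem _ hx hy
    | smul c x _ hx =>
      rw [map_smul, LinearMap.smul_apply]
      exact Submodule.smul_mem _ _ hx

theorem Gam_eq (S : Submodule K ((∀ i, Q i) → K)) (I J : Finset ι) :
    Gam Φ S I J = Submodule.span K {z | ∃ g ∈ S ⊓ Dep Q K J, ∃ h ∈ Dep Q K (I \ J),
      z = BB Φ I J g h} := rfl

/-- the evaluation of a component at the coordinates outside `J` lies in `W_J`. -/
theorem ev_comp (hA : EvClosed A) {J J' : Finset ι} (hJ : J ∈ JJ I α) (hJ' : J' ∈ JJ I α)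
    (hne : J' ≠ J) {s : ℕ} (hs : J.card = s) (q : ∀ i, Q i)
    {z : ((∀ i, Q i) → K) × ((∀ i, Q i) → K)}
    (hz : z ∈ Gam Φ (if s + 1 ≤ J'.card then A.toSubmodule else ⊤) I J') :
    ev J q z.1 ∈ WW A J α := by
  obtain ⟨hJI, hαJ⟩ := mem_JJ.mp hJ
  obtain ⟨hJ'I, hαJ'⟩ := mem_JJ.mp hJ'
  unfold Gam at hz
  induction hz using Submodule.span_induction with
  | mem x hx =>
    obtain ⟨g, hg, h, hh, rfl⟩ := hx
    rw [BB_apply]
    simp only
    rw [ev_mul]
    by_cases hsub : J ⊆ J'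
    · have hss : J ⊂ J' := (Finset.ssubset_iff_subset_ne).mpr ⟨hsub, hne.symm⟩
      have hc : s + 1 ≤ J'.card := by
        have := Finset.card_lt_card hss
        omega
      rw [if_pos hc] at hg
      apply Submodule.mem_sup_left
      have e : ev J q g * ev J q h = h q • ev J q g := by
        ext x
        simp only [Pi.mul_apply, Pi.smul_apply, smul_eq_mul]
        rw [ev_of_disjoint q hh]
        · ring
        · rw [Finset.disjoint_left]
          intro i hi hi'
          exact (Finset.mem_sdiff.mp hi).2 (hsub hi')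
      rw [e]
      apply Submodule.smul_mem
      exact ⟨hA J q g hg.1, ev_mem q hg.2 Finset.inter_subset_right⟩
    · apply Submodule.mem_sup_right
      apply Submodule.subset_span
      refine ⟨J' ∩ J, ?_, Finset.mem_inter.mpr ⟨hαJ', hαJ⟩, ev J q g, ev_mem q hg.2 (le_refl _),
        ev J q h, ev_mem q hh ?_, rfl⟩
      · rw [Finset.ssubset_iff_subset_ne]
        refine ⟨Finset.inter_subset_right, fun h => hsub ?_⟩
        rw [← h]
        exact Finset.inter_subset_left
      · intro i hi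
        rw [Finset.mem_inter, Finset.mem_sdiff] at hi
        rw [Finset.mem_sdiff, Finset.mem_inter]
        exact ⟨hi.2, fun h => hi.1.2 h.1⟩
  | zero => simp
  | add x y _ _ hx hy =>
    rw [Prod.fst_add, map_add]
    exact Submodule.add_mem _ hx hy
  | smul c x _ hx =>
    rw [Prod.smul_fst, map_smul]
    exact Submodule.smul_mem _ _ hx

theorem mem_MM {s : ℕ} {z : ((∀ i, Q i) → K) × ((∀ i, Q i) → K)} (hz : z ∈ MM Φ A I α s) :
    ∃ w : Finset ι → ((∀ i, Q i) → K) × ((∀ i, Q i) → K),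
      (∀ J ∈ JJ I α, w J ∈ Gam Φ (if s ≤ J.card then A.toSubmodule else ⊤) I J) ∧
      ∑ J ∈ JJ I α, w J = z := by
  unfold MM at hz
  obtain ⟨μ, hμ⟩ := (Submodule.mem_iSup_finset_iff_exists_sum _ _).mp hz
  exact ⟨fun J => (μ J : _), fun J _ => (μ J).2, hμ⟩

theorem phase1_step (hA : EvClosed A) (hΦ : Retr A Φ n) (hI : I.card = n + 1) (s : ℕ)
    {z : ((∀ i, Q i) → K) × ((∀ i, Q i) → K)} (hz : z ∈ MM Φ A I α (s + 1)) (hz1 : z.1 ∈ A) :
    z ∈ MM Φ A I α s := by
  classical
  obtain ⟨w, hw, hsumw⟩ := mem_MM hz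
  rw [← hsumw]
  apply Submodule.sum_mem
  intro J hJ
  have h1 := hw J hJ
  rcases lt_trichotomy J.card s with hlt | heq | hgt
  · rw [if_neg (by omega)] at h1
    apply Gam_le_MM hJ
    rw [if_neg (by omega)]
    exact h1
  · -- the main case
    rw [if_neg (by omega)] at h1
    obtain ⟨m, g, h, hg, hh, hind, hsum⟩ := indep_rep _ _ _ h1
    obtain ⟨ν, hν⟩ := exists_dual h hind
    rw [hsum]
    apply Submodule.sum_mem
    intro k _
    rw [← heq]
    apply WW_to hΦ hI hJ _ (hh k)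
    -- `g k` lies in `W_J`
    have hdisj : Disjoint (I \ J) J := Finset.sdiff_disjoint
    have h2 : Lop J (ν k) (w J).1 = g k := by
      rw [hsum, Prod.fst_sum, map_sum]
      have h3 : ∀ k', Lop J (ν k) (BB Φ I J (g k') (h k')).1 =
          (if k = k' then (1 : K) else 0) • g k' := by
        intro k'
        rw [BB_apply]
        simp only
        rw [Lop_mul _ (hg k').2 (hh k') hdisj, hν k k']
      rw [Finset.sum_congr rfl (fun k' _ => h3 k')]
      simp
    have h4 : g k = Lop J (ν k) z.1 -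
        ∑ J' ∈ (JJ I α).erase J, Lop J (ν k) (w J').1 := by
      rw [← h2, ← hsumw, Prod.fst_sum, map_sum, ← Finset.add_sum_erase _ _ hJ]
      simp
    rw [h4]
    apply Submodule.sub_mem
    · apply Submodule.mem_sup_left
      exact Lop_mem _ _ (fun q => ⟨hA J q _ hz1, ev_mem_self J q z.1⟩)
    · apply Submodule.sum_mem
      intro J' hJ'
      rw [Finset.mem_erase] at hJ'
      exact Lop_mem _ _ (fun q => ev_comp hA hJ hJ'.2 hJ'.1 heq q (hw J' hJ'.2))
  · rw [if_pos (by omega)] at h1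
    apply Gam_le_MM hJ
    rw [if_pos (by omega)]
    exact h1

theorem phase1 (hA : EvClosed A) (hΦ : Retr A Φ n) (hI : I.card = n + 1)
    {z : ((∀ i, Q i) → K) × ((∀ i, Q i) → K)}
    (hz : z ∈ ⨆ J ∈ JJ I α, Gam Φ ⊤ I J) (hz1 : z.1 ∈ A) :
    z ∈ ⨆ J ∈ JJ I α, Gam Φ A.toSubmodule I J := by
  have h1 : ∀ s, z ∈ MM Φ A I α s → z ∈ MM Φ A I α 0 := by
    intro s
    induction s with
    | zero => exact id
    | succ s ih => exact fun h => ih (phase1_step hA hΦ hI s h hz1)
  have h2 : MM Φ A I α I.card = ⨆ J ∈ JJ I α, Gam Φ ⊤ I J := by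
    unfold MM
    refine iSup_congr (fun J => iSup_congr (fun hJ => ?_))
    have := Finset.card_lt_card (mem_JJ.mp hJ).1
    rw [if_neg (by omega)]
  have h3 : MM Φ A I α 0 = ⨆ J ∈ JJ I α, Gam Φ A.toSubmodule I J := by
    unfold MM
    refine iSup_congr (fun J => iSup_congr (fun hJ => ?_))
    rw [if_pos (Nat.zero_le _)]
  rw [← h3]
  apply h1 I.card
  rw [h2]
  exact hz

end

end Pool.Agent.H346R3.RR
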