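import Pool.Agent.H346R3.RR.LemmaK

set_option autoImplicit false
set_option linter.unusedSectionVars false

namespace Pool.Agent.H346R3.RR

open Finset

variable {ι : Type*} [DecidableEq ι] {Q : ι → Type*} {K : Type*} [Field K]

/-- multiplication as a bilinear map -/
noncomputable def mB : ((∀ i, Q i) → K) →ₗ[K] ((∀ i, Q i) → K) →ₗ[K] ((∀ i, Q i) → K) :=
  LinearMap.mul K _

theorem mB_apply (f g : (∀ i, Q i) → K) : mB f g = f * g := rfl

/-- products of a kernel element on `L` and an element of `A` on the complement -/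
noncomputable def Th (Φ : Finset ι → (((∀ i, Q i) → K) →ₗ[K] ((∀ i, Q i) → K)))
    (A : Subalgebra K ((∀ i, Q i) → K)) (I L : Finset ι) : Submodule K ((∀ i, Q i) → K) :=
  Submodule.span K {z | ∃ w ∈ Dep Q K L ⊓ LinearMap.ker (Φ L),
    ∃ a ∈ A.toSubmodule ⊓ Dep Q K (I \ L), z = mB w a}

/-- the proper subsets of size at most `s` -/
def LL (I : Finset ι) (s : ℕ) : Finset (Finset ι) := I.ssubsets.filter (fun L => L.card ≤ s)

theorem mem_LL {I L : Finset ι} {s : ℕ} : L ∈ LL I s ↔ L ⊂ I ∧ L.card ≤ s := by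
  simp [LL]

/-- the sum over all proper subsets of size at most `s` -/
noncomputable def TS (Φ : Finset ι → (((∀ i, Q i) → K) →ₗ[K] ((∀ i, Q i) → K)))
    (A : Subalgebra K ((∀ i, Q i) → K)) (I : Finset ι) (s : ℕ) : Submodule K ((∀ i, Q i) → K) :=
  ⨆ L ∈ LL I s, Th Φ A I L

theorem Th_le_TS {Φ : Finset ι → (((∀ i, Q i) → K) →ₗ[K] ((∀ i, Q i) → K))}
    {A : Subalgebra K ((∀ i, Q i) → K)} {I L : Finset ι} {s : ℕ} (hL : L ∈ LL I s) :
    Th Φ A I L ≤ TS Φ A I s := by
  unfold TS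
  exact le_iSup_of_le L (le_iSup_of_le hL (le_refl _))

/-- the smaller products inside `L` -/
def VV (A : Subalgebra K ((∀ i, Q i) → K)) (L : Finset ι) : Submodule K ((∀ i, Q i) → K) :=
  Submodule.span K {z | ∃ L' : Finset ι, L' ⊂ L ∧ ∃ w ∈ Dep Q K L',
    ∃ a ∈ A.toSubmodule ⊓ Dep Q K (L \ L'), z = w * a}

/-- the smaller products inside `L` with kernel elements -/
def VK (Φ : Finset ι → (((∀ i, Q i) → K) →ₗ[K] ((∀ i, Q i) → K)))
    (A : Subalgebra K ((∀ i, Q i) → K)) (L : Finset ι) : Submodule K ((∀ i, Q i) → K) :=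
  Submodule.span K {z | ∃ L' : Finset ι, L' ⊂ L ∧ ∃ w ∈ Dep Q K L' ⊓ LinearMap.ker (Φ L'),
    ∃ a ∈ A.toSubmodule ⊓ Dep Q K (L \ L'), z = w * a}

variable {Φ : Finset ι → (((∀ i, Q i) → K) →ₗ[K] ((∀ i, Q i) → K))}
variable {A : Subalgebra K ((∀ i, Q i) → K)} {n : ℕ} {I : Finset ι} {α : ι}

theorem sub_mem_ker (hΦ : Retr A Φ n) {L : Finset ι} (hL : L.card ≤ n) {w : (∀ i, Q i) → K}
    (hw : w ∈ Dep Q K L) : w - Φ L w ∈ Dep Q K L ⊓ LinearMap.ker (Φ L) := by
  refine ⟨Submodule.sub_mem _ hw (hΦ.mapsD L hL w hw), ?_⟩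
  change Φ L (w - Φ L w) = 0
  rw [map_sub, hΦ.fix L hL _ (hΦ.mapsD L hL w hw) (hΦ.mapsA L hL w hw),
    sub_self]

theorem VV_to (hΦ : Retr A Φ n) {L : Finset ι} (hL : L.card ≤ n) {w : (∀ i, Q i) → K}
    (hw : w ∈ (A.toSubmodule ⊓ Dep Q K L) ⊔ VV A L) : w - Φ L w ∈ VK Φ A L := by
  obtain ⟨a, ha, b, hb, rfl⟩ := Submodule.mem_sup.mp hw
  clear hw
  rw [map_add, hΦ.fix L hL a ha.2 ha.1]
  have e : a + b - (a + Φ L b) = b - Φ L b := by ring
  rw [e]
  clear e
  unfold VV at hb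
  induction hb using Submodule.span_induction with
  | mem x hx =>
    obtain ⟨L', hL', w, hw, a, ha, rfl⟩ := hx
    have hun : L' ∪ (L \ L') = L := Finset.union_sdiff_of_subset hL'.1
    have hc : L'.card ≤ n := (Finset.card_le_card hL'.1).trans hL
    have hc2 : (L \ L').card ≤ n := (Finset.card_le_card Finset.sdiff_subset).trans hL
    have h1 := hΦ.mul L' (L \ L') Finset.disjoint_sdiff (by rw [hun]; exact hL) w hw a ha.2
    rw [hun, hΦ.fix _ hc2 a ha.2 ha.1] at h1
    rw [h1, ← sub_mul]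
    exact Submodule.subset_span ⟨L', hL', _, sub_mem_ker hΦ hc hw, a, ha, rfl⟩
  | zero => simp
  | add x y _ _ hx hy =>
    have e : x + y - Φ L (x + y) = (x - Φ L x) + (y - Φ L y) := by rw [map_add]; ring
    rw [e]
    exact Submodule.add_mem _ hx hy
  | smul c x _ hx =>
    rw [map_smul, ← smul_sub]
    exact Submodule.smul_mem _ _ hx

theorem ev_Th (hA : EvClosed A) {L L' : Finset ι} (hL : L ⊂ I) (hne : ¬ L ⊆ L') (q : ∀ i, Q i)
    {z : (∀ i, Q i) → K} (hz : z ∈ Th Φ A I L') : ev L q z ∈ VV A L := by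
  unfold Th at hz
  induction hz using Submodule.span_induction with
  | mem x hx =>
    obtain ⟨w, hw, a, ha, rfl⟩ := hx
    rw [mB_apply, ev_mul]
    apply Submodule.subset_span
    refine ⟨L' ∩ L, ?_, ev L q w, ev_mem q hw.1 (le_refl _), ev L q a, ⟨hA L q a ha.1,
      ev_mem q ha.2 ?_⟩, rfl⟩
    · rw [Finset.ssubset_iff_subset_ne]
      refine ⟨Finset.inter_subset_right, fun h => hne ?_⟩
      rw [← h]
      exact Finset.inter_subset_left
    · intro i hi
      rw [Finset.mem_inter, Finset.mem_sdiff] at hi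
      rw [Finset.mem_sdiff, Finset.mem_inter]
      exact ⟨hi.2, fun h => hi.1.2 h.1⟩
  | zero => simp
  | add x y _ _ hx hy =>
    rw [map_add]
    exact Submodule.add_mem _ hx hy
  | smul c x _ hx =>
    rw [map_smul]
    exact Submodule.smul_mem _ _ hx

theorem VK_mul {L : Finset ι} (hL : L ⊂ I) {s : ℕ} (hLs : L.card = s + 1)
    {w a : (∀ i, Q i) → K} (hw : w ∈ VK Φ A L) (ha : a ∈ A.toSubmodule ⊓ Dep Q K (I \ L)) :
    w * a ∈ TS Φ A I s := by
  unfold VK at hw
  induction hw using Submodule.span_induction with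
  | mem x hx =>
    obtain ⟨L', hL', w, hw, b, hb, rfl⟩ := hx
    have hL'' : L' ∈ LL I s := by
      rw [mem_LL]
      refine ⟨hL'.trans hL, ?_⟩
      have := Finset.card_lt_card hL'
      omega
    apply Th_le_TS hL''
    apply Submodule.subset_span
    refine ⟨w, hw, b * a, ⟨A.mul_mem hb.1 ha.1, mul_mem_Dep hb.2 ha.2 ?_ ?_⟩, ?_⟩
    · exact Finset.sdiff_subset_sdiff hL.1 (le_refl _)
    · exact Finset.sdiff_subset_sdiff (le_refl _) hL'.1
    · rw [mB_apply, mul_assoc]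
  | zero => simp
  | add x y _ _ hx hy =>
    rw [add_mul]
    exact Submodule.add_mem _ hx hy
  | smul c x _ hx =>
    rw [smul_mul_assoc]
    exact Submodule.smul_mem _ _ hx

theorem mem_TS {s : ℕ} {z : (∀ i, Q i) → K} (hz : z ∈ TS Φ A I s) :
    ∃ w : Finset ι → ((∀ i, Q i) → K),
      (∀ L ∈ LL I s, w L ∈ Th Φ A I L) ∧ ∑ L ∈ LL I s, w L = z := by
  unfold TS at hz
  obtain ⟨μ, hμ⟩ := (Submodule.mem_iSup_finset_iff_exists_sum _ _).mp hz
  exact ⟨fun J => (μ J : _), fun J _ => (μ J).2, hμ⟩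

theorem phase2_step (hA : EvClosed A) (hΦ : Retr A Φ n) (hI : I.card = n + 1) (s : ℕ)
    {z : (∀ i, Q i) → K} (hz : z ∈ TS Φ A I (s + 1)) (hz1 : z ∈ A) :
    z ∈ TS Φ A I s := by
  classical
  obtain ⟨θ, hθ, hsumθ⟩ := mem_TS hz
  rw [← hsumθ]
  apply Submodule.sum_mem
  intro L hL
  have h1 := hθ L hL
  obtain ⟨hLI, hLc⟩ := mem_LL.mp hL
  have hLn : L.card ≤ n := by
    have := Finset.card_lt_card hLI
    omega
  rcases Nat.lt_or_ge L.card (s + 1) with hlt | hge
  · exact Th_le_TS (mem_LL.mpr ⟨hLI, by omega⟩) h1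
  · have heq : L.card = s + 1 := le_antisymm hLc hge
    obtain ⟨m, g, h, hg, hh, hind, hsum⟩ := indep_rep _ _ _ h1
    obtain ⟨ν, hν⟩ := exists_dual h hind
    rw [hsum]
    apply Submodule.sum_mem
    intro k _
    rw [mB_apply]
    refine VK_mul hLI heq ?_ (hh k)
    have hdisj : Disjoint (I \ L) L := Finset.sdiff_disjoint
    have h2 : Lop L (ν k) (θ L) = g k := by
      rw [hsum, map_sum]
      have h3 : ∀ k', Lop L (ν k) (mB (g k') (h k')) =
          (if k = k' then (1 : K) else 0) • g k' := by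
        intro k'
        rw [mB_apply, Lop_mul _ (hg k').1 (hh k').2 hdisj, hν k k']
      rw [Finset.sum_congr rfl (fun k' _ => h3 k')]
      simp
    have h4 : g k = Lop L (ν k) z -
        ∑ L' ∈ (LL I (s + 1)).erase L, Lop L (ν k) (θ L') := by
      rw [← h2, ← hsumθ, map_sum, ← Finset.add_sum_erase _ _ hL]
      simp
    have h5 : g k ∈ (A.toSubmodule ⊓ Dep Q K L) ⊔ VV A L := by
      rw [h4]
      apply Submodule.sub_mem
      · apply Submodule.mem_sup_left
        exact Lop_mem _ _ (fun q => ⟨hA L q _ hz1, ev_mem_self L q z⟩)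
      · apply Submodule.mem_sup_right
        apply Submodule.sum_mem
        intro L' hL'
        rw [Finset.mem_erase] at hL'
        refine Lop_mem _ _ (fun q => ev_Th hA hLI ?_ q (hθ L' hL'.2))
        intro hsub
        apply hL'.1
        have := (mem_LL.mp hL'.2).2
        exact (Finset.eq_of_subset_of_card_le hsub (by omega)).symm
    have h6 := VV_to hΦ hLn h5
    have h7 : Φ L (g k) = 0 := (hg k).2
    rw [h7, sub_zero] at h6
    exact h6

theorem phase2_zero (hΦ : Retr A Φ n) {z : (∀ i, Q i) → K} (hz : z ∈ TS Φ A I 0) : z = 0 := by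
  have h1 : TS Φ A I 0 ≤ ⊥ := by
    unfold TS
    refine iSup_le (fun L => iSup_le (fun hL => ?_))
    unfold Th
    rw [Submodule.span_le]
    rintro x ⟨w, hw, a, ha, rfl⟩
    obtain ⟨hLI, hLc⟩ := mem_LL.mp hL
    have hL0 : L = ∅ := Finset.card_eq_zero.mp (Nat.le_zero.mp hLc)
    subst hL0
    have hwA : w ∈ A := by
      by_cases hne : Nonempty (∀ i, Q i)
      · obtain ⟨x₀⟩ := hne
        have : w = algebraMap K _ (w x₀) := by
          ext x
          rw [Pi.algebraMap_apply]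
          exact hw.1 x x₀ (by simp)
        rw [this]
        exact A.algebraMap_mem _
      · have : w = 0 := by
          ext x
          exact (hne ⟨x⟩).elim
        rw [this]
        exact A.zero_mem
    have h2 : Φ ∅ w = w := hΦ.fix ∅ (by simp) w hw.1 hwA
    have h3 : Φ ∅ w = 0 := hw.2
    have h4 : w = 0 := by rw [← h2, h3]
    rw [h4]
    simp
  have := h1 hz
  simpa using this

theorem phase2 (hA : EvClosed A) (hΦ : Retr A Φ n) (hI : I.card = n + 1)
    {z : (∀ i, Q i) → K} (s : ℕ) (hz : z ∈ TS Φ A I s) (hz1 : z ∈ A) : z = 0 := by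
  induction s with
  | zero => exact phase2_zero hΦ hz
  | succ s ih => exact ih (phase2_step hA hΦ hI s hz hz1)

/-- the key consistency lemma -/
theorem lemmaK (hA : EvClosed A) (hΦ : Retr A Φ n) (hI : I.card = n + 1) (hα : α ∈ I)
    {z : ((∀ i, Q i) → K) × ((∀ i, Q i) → K)}
    (hz : z ∈ ⨆ J ∈ JJ I α, Gam Φ ⊤ I J) (hz1 : z.1 ∈ A) : z.1 = z.2 := by
  have h1 := phase1 hA hΦ hI hz hz1
  -- a linear functional description: `z.1 - z.2 ∈ TS` and `z.2 ∈ A`
  have h2 : (⨆ J ∈ JJ I α, Gam Φ A.toSubmodule I J) ≤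
      ((TS Φ A I n).comap (LinearMap.fst K _ _ - LinearMap.snd K _ _)) ⊓
        (A.toSubmodule.comap (LinearMap.snd K _ _)) := by
    refine iSup_le (fun J => iSup_le (fun hJ => ?_))
    obtain ⟨hJI, hαJ⟩ := mem_JJ.mp hJ
    have hJn : J.card ≤ n := by
      have := Finset.card_lt_card hJI
      omega
    have hcard : (I \ J).card ≤ n := by
      have h2 : I \ J ⊆ I.erase α := by
        intro i hi
        rw [Finset.mem_sdiff] at hi
        rw [Finset.mem_erase]
        exact ⟨fun h => hi.2 (h ▸ hαJ), hi.1⟩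
      have h3 := Finset.card_le_card h2
      rw [Finset.card_erase_of_mem hα] at h3
      omega
    have hsub : I \ J ⊂ I := by
      rw [Finset.ssubset_iff_subset_ne]
      refine ⟨Finset.sdiff_subset, fun h => ?_⟩
      have : α ∈ I \ J := by rw [h]; exact hα
      exact (Finset.mem_sdiff.mp this).2 hαJ
    have hsd : I \ (I \ J) = J := Finset.sdiff_sdiff_eq_self hJI.1
    unfold Gam
    rw [Submodule.span_le]
    rintro x ⟨g, hg, h, hh, rfl⟩
    have hfix : Φ J g = g := hΦ.fix J hJn g hg.2 hg.1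
    refine ⟨?_, ?_⟩
    · change (BB Φ I J g h).1 - (BB Φ I J g h).2 ∈ TS Φ A I n
      rw [BB_apply]
      simp only
      rw [hfix]
      apply Th_le_TS (L := I \ J) (mem_LL.mpr ⟨hsub, hcard⟩)
      apply Submodule.subset_span
      refine ⟨h - Φ (I \ J) h, sub_mem_ker hΦ hcard hh, g, ⟨hg.1, by rw [hsd]; exact hg.2⟩, ?_⟩
      rw [mB_apply]
      ring
    · change (BB Φ I J g h).2 ∈ A
      rw [BB_apply]
      simp only
      rw [hfix]
      exact A.mul_mem hg.1 (hΦ.mapsA _ hcard _ hh)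
  obtain ⟨h3, h4⟩ := h2 h1
  have h5 : z.1 - z.2 ∈ TS Φ A I n := h3
  have h6 : z.1 - z.2 ∈ A := A.sub_mem hz1 h4
  exact sub_eq_zero.mp (phase2 hA hΦ hI n h5 h6)

end Pool.Agent.H346R3.RR
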