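import Mathlib

set_option autoImplicit false
set_option linter.unusedSectionVars false

namespace Pool.Agent.H346R3.RR

open Filter

section

variable {X : Type*} (U : Ultrafilter X) (K : X → Type*) [∀ x, Field (K x)]

/-- ideal of the functions vanishing on a large set -/
def UI : Ideal (∀ x, K x) where
  carrier := {f | ∀ᶠ x in (U : Filter X), f x = 0}
  add_mem' := by
    intro f g hf hg
    filter_upwards [hf, hg] with x h1 h2
    rw [Pi.add_apply, h1, h2, add_zero]
  zero_mem' := by
    simp
  smul_mem' := by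
    intro c f hf
    filter_upwards [hf] with x h1
    simp [h1]

theorem mem_UI {f : ∀ x, K x} : f ∈ UI U K ↔ ∀ᶠ x in (U : Filter X), f x = 0 := Iff.rfl

instance UI_maximal : (UI U K).IsMaximal := by
  rw [Ideal.isMaximal_iff]
  refine ⟨?_, ?_⟩
  · rw [mem_UI]
    intro h
    obtain ⟨x, hx⟩ := h.exists
    exact one_ne_zero hx
  · intro J f hIJ hf hfJ
    have h1 : ∀ᶠ x in (U : Filter X), ¬ f x = 0 := by
      rw [Ultrafilter.eventually_not]
      exact hf
    have h2 : (1 : ∀ x, K x) - (fun x => (f x)⁻¹) * f ∈ UI U K := by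
      rw [mem_UI]
      filter_upwards [h1] with x hx
      simp [hx]
    have h3 := J.add_mem (hIJ h2) (J.mul_mem_left (fun x => (f x)⁻¹) hfJ)
    simpa using h3

/-- the ultraproduct -/
abbrev UK : Type _ := (∀ x, K x) ⧸ UI U K

noncomputable instance : Field (UK U K) := Ideal.Quotient.field _

/-- the class of a function -/
noncomputable def umk : (∀ x, K x) →+* UK U K := Ideal.Quotient.mk (UI U K)

theorem umk_eq {f g : ∀ x, K x} : umk U K f = umk U K g ↔ ∀ᶠ x in (U : Filter X), f x = g x := by
  unfold umk
  rw [Ideal.Quotient.eq, mem_UI]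
  simp [sub_eq_zero]

theorem umk_surj (z : UK U K) : ∃ f, umk U K f = z := Ideal.Quotient.mk_surjective z

end

end Pool.Agent.H346R3.RR
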