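import Pool.Agent.H346R3.RR.Construct
import Pool.Agent.H346R3.RR.Ultra

set_option autoImplicit false
set_option linter.unusedSectionVars false

namespace Pool.Agent.H346R3.RR

open Finset

theorem detFin {X K : Type*} [Field K] (V : Submodule K (X → K)) (hV : V.FG) :
    ∃ S : Finset X, ∀ v ∈ V, (∀ x ∈ S, v x = 0) → v = 0 := by
  classical
  have : FiniteDimensional K V := (Submodule.fg_iff_finiteDimensional V).mp hV
  let b := Module.finBasis K V
  have hind : LinearIndependent K (fun k => (b k : X → K)) :=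
    b.linearIndependent.map' V.subtype (Submodule.ker_subtype V)
  obtain ⟨ν, hν⟩ := exists_dual _ hind
  refine ⟨Finset.univ.biUnion (fun k => (ν k).support), fun v hv h => ?_⟩
  have hexp : v = ∑ k, (b.repr ⟨v, hv⟩ k) • (b k : X → K) := by
    have h2 := congrArg V.subtype (b.sum_repr ⟨v, hv⟩)
    rw [map_sum] at h2
    simp only [map_smul, Submodule.subtype_apply] at h2
    exact h2.symm
  have hc : ∀ k, b.repr ⟨v, hv⟩ k = 0 := by
    intro k
    have h1 : ∑ q ∈ (ν k).support, ν k q * v q = b.repr ⟨v, hv⟩ k := by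
      calc ∑ q ∈ (ν k).support, ν k q * v q
          = ∑ q ∈ (ν k).support, ∑ k', (b.repr ⟨v, hv⟩ k') * (ν k q * (b k' : X → K) q) := by
            apply Finset.sum_congr rfl
            intro q _
            conv_lhs => rw [hexp]
            rw [Finset.sum_apply, Finset.mul_sum]
            apply Finset.sum_congr rfl
            intro k' _
            rw [Pi.smul_apply, smul_eq_mul]
            ring
        _ = ∑ k', (b.repr ⟨v, hv⟩ k') * ∑ q ∈ (ν k).support, (ν k q * (b k' : X → K) q) := by
            rw [Finset.sum_comm]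
            apply Finset.sum_congr rfl
            intro k' _
            rw [Finset.mul_sum]
        _ = _ := by
            simp only [hν]
            simp
    rw [← h1]
    apply Finset.sum_eq_zero
    intro q hq
    rw [h q (Finset.mem_biUnion.mpr ⟨k, Finset.mem_univ k, hq⟩), mul_zero]
  rw [hexp]
  simp [hc]

theorem prodFG {β M K : Type*} [Field K] [CommRing M] [Algebra K M] (S : Finset β)
    (W : β → Submodule K M) (hW : ∀ i, (W i).FG) :
    ∃ V : Submodule K M, V.FG ∧ ∀ f : β → M, (∀ i, f i ∈ W i) → ∏ i ∈ S, f i ∈ V := by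
  classical
  induction S using Finset.induction_on with
  | empty =>
    exact ⟨Submodule.span K {1}, Submodule.fg_span_singleton 1, fun f _ => by
      rw [Finset.prod_empty]; exact Submodule.mem_span_singleton_self 1⟩
  | insert a S ha ih =>
    obtain ⟨V, hV, h⟩ := ih
    refine ⟨W a * V, (hW a).mul hV, fun f hf => ?_⟩
    rw [Finset.prod_insert ha]
    exact Submodule.mul_mem_mul (hf a) (h f hf)

section

variable {ι : Type*} [DecidableEq ι] {Q : ι → Type*} {K : Type*} [Field K]
variable {L : Type*} [Field L]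

/-- extension of scalars of an algebra of functions -/
def AL (A : Subalgebra K ((∀ i, Q i) → K)) (c : K →+* L) : Subalgebra L ((∀ i, Q i) → L) :=
  (Submodule.span L {f | ∃ a ∈ A, f = fun x => c (a x)}).toSubalgebra
    (Submodule.subset_span ⟨1, A.one_mem, by ext x; simp⟩)
    (by
      intro x y hx hy
      induction hx using Submodule.span_induction with
      | mem x hx =>
        obtain ⟨a, ha, rfl⟩ := hx
        induction hy using Submodule.span_induction with
        | mem y hy =>
          obtain ⟨b, hb, rfl⟩ := hy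
          apply Submodule.subset_span
          refine ⟨a * b, A.mul_mem ha hb, ?_⟩
          ext x
          simp
        | zero => simp
        | add y z _ _ h1 h2 => rw [mul_add]; exact Submodule.add_mem _ h1 h2
        | smul r y _ h => rw [mul_smul_comm]; exact Submodule.smul_mem _ _ h
      | zero => simp
      | add x z _ _ h1 h2 => rw [add_mul]; exact Submodule.add_mem _ h1 h2
      | smul r x _ h => rw [smul_mul_assoc]; exact Submodule.smul_mem _ _ h)

theorem mem_AL {A : Subalgebra K ((∀ i, Q i) → K)} {c : K →+* L} {f : (∀ i, Q i) → L} :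
    f ∈ AL A c ↔ f ∈ Submodule.span L {f | ∃ a ∈ A, f = fun x => c (a x)} := Iff.rfl

theorem AL_ev {A : Subalgebra K ((∀ i, Q i) → K)} (hA : EvClosed A) (c : K →+* L) :
    EvClosed (AL A c) := by
  intro J q f hf
  rw [mem_AL] at hf ⊢
  induction hf using Submodule.span_induction with
  | mem x hx =>
    obtain ⟨a, ha, rfl⟩ := hx
    exact Submodule.subset_span ⟨ev J q a, hA J q a ha, rfl⟩
  | zero => simp
  | add x y _ _ hx hy =>
    rw [map_add]
    exact Submodule.add_mem _ hx hy
  | smul r x _ hx =>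
    rw [map_smul]
    exact Submodule.smul_mem _ _ hx

theorem AL_rep {A : Subalgebra K ((∀ i, Q i) → K)} (hA : EvClosed A) (c : K →+* L)
    (q₀ : ∀ i, Q i) (I : Finset ι) {f : (∀ i, Q i) → L} (hf : f ∈ AL A c)
    (hfI : f ∈ Dep Q L I) :
    ∃ (m : ℕ) (κ : Fin m → L) (a : Fin m → ((∀ i, Q i) → K)), (∀ j, a j ∈ A) ∧
      (∀ j, a j ∈ Dep Q K I) ∧ ∀ x, f x = ∑ j, κ j * c (a j x) := by
  rw [mem_AL, Submodule.mem_span_set'] at hf
  obtain ⟨m, κ, g, hg⟩ := hf
  have h1 : ∀ j, ∃ a ∈ A, (g j : (∀ i, Q i) → L) = fun x => c (a x) := fun j => (g j).2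
  choose a ha hga using h1
  refine ⟨m, κ, fun j => ev I q₀ (a j), fun j => hA I q₀ _ (ha j),
    fun j => ev_mem_self I q₀ (a j), fun x => ?_⟩
  have h2 : f x = ev I q₀ f x := by rw [ev_of_subset q₀ hfI (le_refl _)]
  rw [h2, ev_apply, ← hg, Finset.sum_apply]
  apply Finset.sum_congr rfl
  intro j _
  rw [Pi.smul_apply, smul_eq_mul, hga j]
  rfl

theorem theoremB [Fintype ι] {A : Subalgebra K ((∀ i, Q i) → K)} (hA : EvClosed A)
    {T : (∀ i, Q i) → K} (hT : T ∈ A) (q₀ : ∀ i, Q i) {k : ℕ}
    (P : Fin k → Finpartition (Finset.univ : Finset ι))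
    (hbox : ∀ X : ∀ i, Finset (Q i), ∃ g : Fin k → Finset ι → ((∀ i, Q i) → K),
      (∀ i I, g i I ∈ Dep Q K I) ∧
      ∀ x, (∀ i, x i ∈ X i) → T x = ∑ i, ∏ I ∈ (P i).parts, g i I x) :
    ∃ g : Fin k → Finset ι → ((∀ i, Q i) → K), (∀ i I, g i I ∈ A) ∧
      (∀ i I, g i I ∈ Dep Q K I) ∧ ∀ x, T x = ∑ i, ∏ I ∈ (P i).parts, g i I x := by
  classical
  choose g hg hgT using hbox
  let Bx : Type _ := ∀ i, Finset (Q i)
  have : Nonempty Bx := ⟨fun _ => ∅⟩
  let U : Ultrafilter Bx := Ultrafilter.of Filter.atTop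
  have hU : ∀ x : (∀ i, Q i), ∀ᶠ X : Bx in (U : Filter Bx), ∀ i, x i ∈ X i := by
    intro x
    have h1 : ∀ᶠ X : Bx in (Filter.atTop : Filter Bx), ∀ i, x i ∈ X i := by
      filter_upwards [Filter.eventually_ge_atTop (fun i => ({x i} : Finset (Q i)) : Bx)] with X hX i
      exact hX i (Finset.mem_singleton_self _)
    exact (Ultrafilter.of_le _) h1
  let KK : Bx → Type _ := fun _ => K
  let L := UK U KK
  let c : K →+* L := (umk U KK).comp (Pi.constRingHom Bx K)
  have hc : ∀ a : K, c a = umk U KK (fun _ => a) := fun a => rfl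
  -- decomposition over the ultrapower
  let G : Fin k → Finset ι → ((∀ i, Q i) → L) := fun i I x => umk U KK (fun X => g X i I x)
  have hG : ∀ i I, G i I ∈ Dep Q L I := by
    intro i I x y hxy
    change umk U KK _ = umk U KK _
    congr 1
    funext X
    exact hg X i I x y hxy
  have hGT : (∑ i, ∏ I ∈ (P i).parts, G i I) = fun x => c (T x) := by
    funext x
    rw [Finset.sum_apply]
    simp only [Finset.prod_apply]
    have h1 : (∑ i, ∏ I ∈ (P i).parts, G i I x) =
        umk U KK (∑ i, ∏ I ∈ (P i).parts, fun X => g X i I x) := by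
      rw [map_sum]
      apply Finset.sum_congr rfl
      intro i _
      rw [map_prod]
    rw [h1, hc, umk_eq]
    filter_upwards [hU x] with X hX
    rw [hgT X x hX, Finset.sum_apply]
    simp only [Finset.prod_apply]
  have hmem : (∑ i, ∏ I ∈ (P i).parts, G i I) ∈ AL A c := by
    rw [hGT, mem_AL]
    exact Submodule.subset_span ⟨T, hT, rfl⟩
  obtain ⟨g', hg'A, hg'D, hg'T⟩ := theoremA (AL_ev hA c) P G hG hmem
  have hrep := fun i I => AL_rep hA c q₀ I (hg'A i I) (hg'D i I)
  choose m κ a haA haD hrep using hrep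
  have hlift := fun i I j => umk_surj U KK (κ i I j)
  choose κ' hκ' using hlift
  let H : Bx → Fin k → Finset ι → ((∀ i, Q i) → K) := fun X i I =>
    ∑ j, κ' i I j X • a i I j
  have hHx : ∀ X i I x, H X i I x = ∑ j, κ' i I j X * a i I j x := by
    intro X i I x
    simp only [H, Finset.sum_apply, Pi.smul_apply, smul_eq_mul]
  have hH : ∀ i I x, g' i I x = umk U KK (fun X => H X i I x) := by
    intro i I x
    rw [hrep i I x]
    have h1 : (fun X => H X i I x) = ∑ j, (κ' i I j * fun _ => a i I j x) := by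
      funext X
      rw [hHx, Finset.sum_apply]
      rfl
    rw [h1, map_sum]
    apply Finset.sum_congr rfl
    intro j _
    rw [map_mul, hκ', hc]
  -- a finite-dimensional space containing everything
  have hV : ∃ V : Submodule K ((∀ i, Q i) → K), V.FG ∧
      ∀ X, T - ∑ i, ∏ I ∈ (P i).parts, H X i I ∈ V := by
    have h1 : ∀ i : Fin k, ∃ V : Submodule K ((∀ i, Q i) → K), V.FG ∧
        ∀ f : Finset ι → ((∀ i, Q i) → K), (∀ I, f I ∈ Submodule.span K (Set.range (a i I))) →
          ∏ I ∈ (P i).parts, f I ∈ V := by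
      intro i
      exact prodFG (P i).parts (fun I => Submodule.span K (Set.range (a i I)))
        (fun I => Submodule.fg_span (Set.finite_range _))
    choose V hV1 hV2 using h1
    refine ⟨Submodule.span K {T} ⊔ ⨆ i, V i, ?_, fun X => ?_⟩
    · exact (Submodule.fg_span_singleton T).sup (Submodule.fg_iSup V hV1)
    · apply Submodule.sub_mem
      · exact Submodule.mem_sup_left (Submodule.mem_span_singleton_self T)
      · apply Submodule.mem_sup_right
        apply Submodule.sum_mem
        intro i _
        apply Submodule.mem_iSup_of_mem i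
        apply hV2
        intro I
        exact Submodule.sum_mem _ (fun j _ =>
          Submodule.smul_mem _ _ (Submodule.subset_span ⟨j, rfl⟩))
  obtain ⟨V, hVfg, hVm⟩ := hV
  obtain ⟨S, hS⟩ := detFin V hVfg
  have hev : ∀ x, ∀ᶠ X in (U : Filter Bx), T x = ∑ i, ∏ I ∈ (P i).parts, H X i I x := by
    intro x
    have h1 : (∑ i, ∏ I ∈ (P i).parts, g' i I) x = c (T x) := by
      rw [← hg'T, hGT]
    rw [Finset.sum_apply] at h1
    simp only [Finset.prod_apply, hH] at h1
    have h2 : (∑ i, ∏ I ∈ (P i).parts, umk U KK (fun X => H X i I x)) =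
        umk U KK (∑ i, ∏ I ∈ (P i).parts, fun X => H X i I x) := by
      rw [map_sum]
      apply Finset.sum_congr rfl
      intro i _
      rw [map_prod]
    rw [h2, hc, umk_eq] at h1
    filter_upwards [h1] with X hX
    rw [← hX, Finset.sum_apply]
    simp only [Finset.prod_apply]
  have hall : ∀ᶠ X in (U : Filter Bx), ∀ x ∈ S, T x = ∑ i, ∏ I ∈ (P i).parts, H X i I x := by
    rw [Filter.eventually_all_finset]
    intro x _
    exact hev x
  obtain ⟨X, hX⟩ := hall.exists
  refine ⟨H X, ?_, ?_, ?_⟩
  · intro i I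
    exact A.sum_mem (fun j _ => A.smul_mem (haA i I j) _)
  · intro i I
    exact Submodule.sum_mem _ (fun j _ => Submodule.smul_mem _ _ (haD i I j))
  · have h0 := hS _ (hVm X) (by
      intro x hx
      rw [Pi.sub_apply, hX x hx, Finset.sum_apply]
      simp only [Finset.prod_apply, sub_self])
    intro x
    have h1 := congrFun h0 x
    rw [Pi.sub_apply, Finset.sum_apply] at h1
    simp only [Finset.prod_apply, Pi.zero_apply] at h1
    exact sub_eq_zero.mp h1

end

end Pool.Agent.H346R3.RR
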