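import Pool.Agent.H346R3.RR.TheoremB

set_option autoImplicit false
set_option linter.unusedSectionVars false

namespace Pool.Agent.H346R3.RR

open Finset

section

variable {ι : Type*} [DecidableEq ι] [Fintype ι] {Q : ι → Type*} {K : Type*} [Field K]

/-- a decomposition of a given shape on a given set of points -/
def DecS {k : ℕ} (P : Fin k → Finpartition (Finset.univ : Finset ι))
    (B : (∀ i, Q i) → Prop) (T : (∀ i, Q i) → K) : Prop :=
  ∃ g : Fin k → Finset ι → ((∀ i, Q i) → K), (∀ i I, g i I ∈ Dep Q K I) ∧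
    ∀ x, B x → T x = ∑ i, ∏ I ∈ (P i).parts, g i I x

/-- a decomposition with less than `l` summands on a given set of points -/
def Dec (R : Set (Finpartition (Finset.univ : Finset ι))) (l : ℕ)
    (B : (∀ i, Q i) → Prop) (T : (∀ i, Q i) → K) : Prop :=
  ∃ k < l, ∃ P : Fin k → Finpartition (Finset.univ : Finset ι), (∀ i, P i ∈ R) ∧ DecS P B T

/-- the possible shapes -/
abbrev Sh (R : Set (Finpartition (Finset.univ : Finset ι))) (l : ℕ) : Type _ :=
  Σ k : Fin l, (Fin k → {P : Finpartition (Finset.univ : Finset ι) // P ∈ R})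

theorem finite_Sh (R : Set (Finpartition (Finset.univ : Finset ι))) (l : ℕ) :
    Finite (Sh R l) := by
  have h1 : Finite (Finpartition (Finset.univ : Finset ι)) := by
    apply Finite.of_injective (fun P : Finpartition (Finset.univ : Finset ι) => P.parts)
    intro P P' h
    exact Finpartition.ext h
  infer_instance

theorem Dec_iff (R : Set (Finpartition (Finset.univ : Finset ι))) (l : ℕ)
    (B : (∀ i, Q i) → Prop) (T : (∀ i, Q i) → K) :
    Dec R l B T ↔ ∃ σ : Sh R l, DecS (fun i => (σ.2 i).1) B T := by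
  constructor
  · rintro ⟨k, hk, P, hP, h⟩
    exact ⟨⟨⟨k, hk⟩, fun i => ⟨P i, hP i⟩⟩, h⟩
  · rintro ⟨σ, h⟩
    exact ⟨σ.1, σ.1.2, fun i => (σ.2 i).1, fun i => (σ.2 i).2, h⟩

theorem DecS_anti {k : ℕ} {P : Fin k → Finpartition (Finset.univ : Finset ι)}
    {B B' : (∀ i, Q i) → Prop} {T : (∀ i, Q i) → K} (h : DecS P B T) (hB : ∀ x, B' x → B x) :
    DecS P B' T := by
  obtain ⟨g, h1, h2⟩ := h
  exact ⟨g, h1, fun x hx => h2 x (hB x hx)⟩

end

section

variable {ι : Type*} [DecidableEq ι] [Fintype ι]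
variable (U : Ultrafilter ℕ) (K : ℕ → Type*) [∀ N, Field (K N)] (Q : ℕ → ι → Type*)

/-- the sequences of points -/
abbrev Qs (i : ι) : Type _ := ∀ N, Q N i

variable {Q}

/-- the projection to a given stage -/
def pr (x : ∀ i, Qs Q i) (N : ℕ) : ∀ i, Q N i := fun i => x i N

/-- the internal function attached to a sequence of functions -/
noncomputable def star (F : ∀ N, (∀ i, Q N i) → K N) : (∀ i, Qs Q i) → UK U K :=
  fun x => umk U K (fun N => F N (pr x N))

/-- the algebra of internal functions -/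
noncomputable def IntA : Subalgebra (UK U K) ((∀ i, Qs Q i) → UK U K) where
  carrier := {f | ∃ F : ∀ N, (∀ i, Q N i) → K N, f = star U K F}
  mul_mem' := by
    rintro _ _ ⟨F, rfl⟩ ⟨G, rfl⟩
    refine ⟨fun N => F N * G N, ?_⟩
    funext x
    rw [Pi.mul_apply]
    unfold star
    rw [← map_mul]
    rfl
  add_mem' := by
    rintro _ _ ⟨F, rfl⟩ ⟨G, rfl⟩
    refine ⟨fun N => F N + G N, ?_⟩
    funext x
    rw [Pi.add_apply]
    unfold star
    rw [← map_add]
    rfl
  algebraMap_mem' := by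
    intro r
    obtain ⟨c, hc⟩ := umk_surj U K r
    refine ⟨fun N _ => c N, ?_⟩
    funext x
    rw [Pi.algebraMap_apply]
    unfold star
    rw [hc]
    rfl

theorem mem_IntA {f : (∀ i, Qs Q i) → UK U K} :
    f ∈ IntA U K ↔ ∃ F : ∀ N, (∀ i, Q N i) → K N, f = star U K F := Iff.rfl

theorem ev_star (J : Finset ι) (q : ∀ i, Qs Q i) (F : ∀ N, (∀ i, Q N i) → K N) :
    ev J q (star U K F) = star U K (fun N => ev J (pr q N) (F N)) := by
  funext x
  rw [ev_apply]
  change umk U K (fun N => F N (pr (J.piecewise x q) N)) =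
    umk U K (fun N => F N (J.piecewise (pr x N) (pr q N)))
  congr 1
  funext N
  congr 1
  funext i
  unfold pr
  by_cases hi : i ∈ J
  · rw [Finset.piecewise_eq_of_mem _ _ _ hi, Finset.piecewise_eq_of_mem _ _ _ hi]
  · rw [Finset.piecewise_eq_of_notMem _ _ _ hi, Finset.piecewise_eq_of_notMem _ _ _ hi]

theorem IntA_ev : EvClosed (IntA (Q := Q) U K) := by
  rintro J q _ ⟨F, rfl⟩
  exact ⟨_, ev_star U K J q F⟩

theorem box_dec (hU : (U : Filter ℕ) ≤ Filter.atTop)
    (R : Set (Finpartition (Finset.univ : Finset ι))) (l : ℕ)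
    (T : ∀ N, (∀ i, Q N i) → K N)
    (hbox : ∀ N, ∀ X : ∀ i, Finset (Q N i), (∀ i, (X i).card ≤ N) →
      Dec R l (fun x => ∀ i, x i ∈ X i) (T N)) (X : ∀ i, Finset (Qs Q i)) :
    ∃ σ : Sh R l, DecS (fun i => (σ.2 i).1) (fun x => ∀ i, x i ∈ X i) (star U K T) := by
  classical
  have := finite_Sh R l
  have h1 : ∀ᶠ N in (U : Filter ℕ), ∃ σ : Sh R l, DecS (fun i => (σ.2 i).1)
      (fun x => ∀ i, x i ∈ (X i).image (fun q => q N)) (T N) := by
    have h2 : ∀ᶠ N in (U : Filter ℕ), (∑ i, (X i).card) ≤ N :=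
      hU (Filter.eventually_ge_atTop _)
    filter_upwards [h2] with N hN
    rw [← Dec_iff]
    apply hbox
    intro i
    calc ((X i).image (fun q => q N)).card ≤ (X i).card := Finset.card_image_le
      _ ≤ ∑ i, (X i).card := Finset.single_le_sum (f := fun i => (X i).card)
          (fun _ _ => Nat.zero_le _) (Finset.mem_univ i)
      _ ≤ N := hN
  rw [Ultrafilter.eventually_exists_iff] at h1
  obtain ⟨σ, hσ⟩ := h1
  refine ⟨σ, ?_⟩
  have h3 : ∀ N, ∃ g : Fin σ.1 → Finset ι → ((∀ i, Q N i) → K N),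
      (∀ i I, g i I ∈ Dep (Q N) (K N) I) ∧
      (DecS (fun i => (σ.2 i).1) (fun x => ∀ i, x i ∈ (X i).image (fun q => q N)) (T N) →
        ∀ x, (∀ i, x i ∈ (X i).image (fun q => q N)) →
          T N x = ∑ i, ∏ I ∈ (σ.2 i).1.parts, g i I x) := by
    intro N
    by_cases h : DecS (fun i => (σ.2 i).1)
        (fun x => ∀ i, x i ∈ (X i).image (fun q => q N)) (T N)
    · obtain ⟨g, hg, hg2⟩ := h
      exact ⟨g, hg, fun _ => hg2⟩
    · exact ⟨fun _ _ => 0, fun _ _ => Submodule.zero_mem _, fun h' => (h h').elim⟩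
  choose g hg hg2 using h3
  refine ⟨fun i I => star U K (fun N => g N i I), ?_, ?_⟩
  · intro i I x y hxy
    change umk U K (fun N => g N i I (pr x N)) = umk U K (fun N => g N i I (pr y N))
    congr 1
    funext N
    apply hg N i I
    intro j hj
    unfold pr
    rw [hxy j hj]
  · intro x hx
    have h4 : (∑ i, ∏ I ∈ (σ.2 i).1.parts, star U K (fun N => g N i I) x) =
        umk U K (∑ i, ∏ I ∈ (σ.2 i).1.parts, fun N => g N i I (pr x N)) := by
      rw [map_sum]
      apply Finset.sum_congr rfl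
      intro i _
      rw [map_prod]
      rfl
    rw [h4]
    unfold star
    rw [umk_eq]
    filter_upwards [hσ] with N hN
    rw [hg2 N hN (pr x N) (fun i => Finset.mem_image.mpr ⟨x i, hx i, rfl⟩), Finset.sum_apply]
    simp only [Finset.prod_apply]

theorem theoremC [∀ N i, Nonempty (Q N i)]
    (R : Set (Finpartition (Finset.univ : Finset ι))) (l : ℕ)
    (T : ∀ N, (∀ i, Q N i) → K N)
    (hbox : ∀ N, ∀ X : ∀ i, Finset (Q N i), (∀ i, (X i).card ≤ N) →
      Dec R l (fun x => ∀ i, x i ∈ X i) (T N)) :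
    ∃ N, Dec R l (fun _ => True) (T N) := by
  classical
  let U : Ultrafilter ℕ := Ultrafilter.of Filter.atTop
  have hU : (U : Filter ℕ) ≤ Filter.atTop := Ultrafilter.of_le _
  have := finite_Sh R l
  have : Fintype (Sh R l) := Fintype.ofFinite _
  -- a single shape works for all boxes
  have h1 : ∃ σ : Sh R l, ∀ X : ∀ i, Finset (Qs Q i),
      DecS (fun i => (σ.2 i).1) (fun x => ∀ i, x i ∈ X i) (star U K T) := by
    by_contra hcon
    push Not at hcon
    choose X hX using hcon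
    obtain ⟨σ, hσ⟩ := box_dec U K hU R l T hbox
      (fun i => Finset.univ.biUnion (fun σ => X σ i))
    exact hX σ (DecS_anti hσ (fun x hx i =>
      Finset.mem_biUnion.mpr ⟨σ, Finset.mem_univ σ, hx i⟩))
  obtain ⟨σ, hσ⟩ := h1
  let q₀ : ∀ i, Qs Q i := fun i N => Classical.arbitrary (Q N i)
  obtain ⟨g, hgA, hgD, hgT⟩ := theoremB (IntA_ev U K) ((mem_IntA U K).mpr ⟨T, rfl⟩) q₀
    (fun i => (σ.2 i).1) hσ
  choose F hF using hgA
  have hF2 : ∀ i I x, g i I x =
      umk U K (fun N => ev I (pr q₀ N) (F i I N) (pr x N)) := by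
    intro i I x
    have h2 : g i I x = ev I q₀ (g i I) x := by rw [ev_of_subset q₀ (hgD i I) (le_refl _)]
    rw [h2, hF i I, ev_star]
    rfl
  have hx : ∀ x : (∀ i, Qs Q i), ∀ᶠ N in (U : Filter ℕ), T N (pr x N) =
      ∑ i, ∏ I ∈ (σ.2 i).1.parts, ev I (pr q₀ N) (F i I N) (pr x N) := by
    intro x
    have h2 := hgT x
    simp only [hF2] at h2
    have h3 : (∑ i, ∏ I ∈ (σ.2 i).1.parts,
        umk U K (fun N => ev I (pr q₀ N) (F i I N) (pr x N))) =
        umk U K (∑ i, ∏ I ∈ (σ.2 i).1.parts,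
          fun N => ev I (pr q₀ N) (F i I N) (pr x N)) := by
      rw [map_sum]
      apply Finset.sum_congr rfl
      intro i _
      rw [map_prod]
    rw [h3] at h2
    unfold star at h2
    rw [umk_eq] at h2
    filter_upwards [h2] with N hN
    rw [hN, Finset.sum_apply]
    simp only [Finset.prod_apply]
  have h4 : ∃ N, ∀ y : (∀ i, Q N i), T N y =
      ∑ i, ∏ I ∈ (σ.2 i).1.parts, ev I (pr q₀ N) (F i I N) y := by
    by_contra hcon
    push Not at hcon
    choose y hy using hcon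
    obtain ⟨N, hN⟩ := (hx (fun i N => y N i)).exists
    exact hy N hN
  obtain ⟨N, hN⟩ := h4
  refine ⟨N, ?_⟩
  rw [Dec_iff]
  exact ⟨σ, fun i I => ev I (pr q₀ N) (F i I N), fun i I => ev_mem_self _ _ _, fun y _ => hN y⟩

end

end Pool.Agent.H346R3.RR
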